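import Pool.Agent.Helper14.RR.Defs

set_option autoImplicit false

/-!
Exact Triangle for algorithms that ask the signs of arbitrary real polynomials of degree at most
`d` in all the weights, all at once.
-/

namespace Pool.Agent.Helper21.NP

open Pool.Agent.Helper14.RR

/-- The value of the polynomial `p` at the weights of `I`. -/
noncomputable def pvalue {n : ℕ} (p : MvPolynomial (Fin n × Fin n) ℝ) (I : Inst n) : ℝ :=
  MvPolynomial.eval (fun c => (I.wt c.1 c.2 : ℝ)) p

/-- A randomized algorithm on `n`-vertex instances that asks the signs of `D` real polynomials of
degree at most `d`, all at once, and uses `R` uniformly random bits. The polynomials are arbitrary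
functions of the flags and the random bits, the output is an arbitrary function of the flags, the
random bits and the signs. -/
structure PAlg (n d D R : ℕ) where
  ask : (Fin n → Fin n → Bool) → (Fin R → Bool) → Fin D → MvPolynomial (Fin n × Fin n) ℝ
  deg : ∀ f ρ l, (ask f ρ l).totalDegree ≤ d
  out : (Fin n → Fin n → Bool) → (Fin R → Bool) → (Fin D → SignType) → Bool

/-- The output. -/
noncomputable def PAlg.output {n d D R : ℕ} (A : PAlg n d D R) (I : Inst n)
    (ρ : Fin R → Bool) : Bool :=
  A.out I.flag ρ fun l => SignType.sign (pvalue (A.ask I.flag ρ l) I)

open Classical in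
/-- The algorithm decides Exact Triangle with bounded error: on every valid instance the output is
correct with probability at least `2/3` over the random bits. -/
def PAlg.Decides {n d D R : ℕ} (A : PAlg n d D R) : Prop :=
  ∀ I : Inst n, I.Valid →
    2 * 2 ^ R ≤ 3 * (Finset.univ.filter fun ρ : Fin R → Bool =>
      (A.output I ρ = true ↔ I.Yes)).card

end Pool.Agent.Helper21.NP
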