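import Pool.Agent.Helper21.NP.Defs

set_option autoImplicit false

/-!
The lower bound: restriction to a line of instances.
-/

namespace Pool.Agent.Helper21.NP

open Finset Pool.Agent.Helper14.RR

/-- A real polynomial of degree at most `d` changes its sign between consecutive integers at most
`2 d` times. -/
theorem sign_changes (F : Polynomial ℝ) (d T : ℕ) (hd : F.natDegree ≤ d) :
    ((range T).filter fun t : ℕ => SignType.sign (F.eval (t : ℝ)) ≠
      SignType.sign (F.eval ((t + 1 : ℕ) : ℝ))).card ≤ 2 * d := by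
  classical
  by_cases hF : F = 0
  · subst hF
    simp
  set S := (range T).filter fun t : ℕ => SignType.sign (F.eval (t : ℝ)) ≠
      SignType.sign (F.eval ((t + 1 : ℕ) : ℝ)) with hS
  have hroot : ∀ t ∈ S, ∃ r : ℝ, F.eval r = 0 ∧ (t : ℝ) ≤ r ∧ r ≤ t + 1 := by
    intro t ht
    rw [hS, mem_filter] at ht
    have hne := ht.2
    by_contra hcon
    push Not at hcon
    apply hne
    have hle : (t : ℝ) ≤ ((t + 1 : ℕ) : ℝ) := by push_cast; linarith
    have hcont : ContinuousOn (fun x => F.eval x) (Set.Icc (t : ℝ) ((t + 1 : ℕ) : ℝ)) :=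
      F.continuous.continuousOn
    rcases lt_trichotomy (F.eval (t : ℝ)) 0 with h1 | h1 | h1
    · rcases lt_trichotomy (F.eval ((t + 1 : ℕ) : ℝ)) 0 with h2 | h2 | h2
      · rw [sign_neg h1, sign_neg h2]
      · exact absurd (hcon _ h2 hle) (by push_cast; linarith)
      · obtain ⟨r, hr1, hr2⟩ := intermediate_value_Icc hle hcont ⟨h1.le, h2.le⟩
        refine absurd (hcon r hr2 hr1.1) ?_
        have := hr1.2
        push_cast at this
        linarith
    · exact absurd (hcon _ h1 le_rfl) (by linarith)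
    · rcases lt_trichotomy (F.eval ((t + 1 : ℕ) : ℝ)) 0 with h2 | h2 | h2
      · obtain ⟨r, hr1, hr2⟩ := intermediate_value_Icc' hle hcont ⟨h2.le, h1.le⟩
        refine absurd (hcon r hr2 hr1.1) ?_
        have := hr1.2
        push_cast at this
        linarith
      · exact absurd (hcon _ h2 hle) (by push_cast; linarith)
      · rw [sign_pos h1, sign_pos h2]
  choose! r hr using hroot
  have hmaps : ∀ t ∈ S, r t ∈ F.roots.toFinset := by
    intro t ht
    rw [Multiset.mem_toFinset, Polynomial.mem_roots hF]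
    exact (hr t ht).1
  have hfib : ∀ x ∈ F.roots.toFinset, (S.filter fun t => r t = x).card ≤ 2 := by
    intro x _
    have hsub : (S.filter fun t => r t = x) ⊆ {⌊x⌋₊, ⌊x⌋₊ - 1} := by
      intro t ht
      rw [mem_filter] at ht
      obtain ⟨h1, h2⟩ := ht
      obtain ⟨_, h3, h4⟩ := hr t h1
      rw [h2] at h3 h4
      have hx0 : 0 ≤ x := le_trans (Nat.cast_nonneg t) h3
      have h5 : t ≤ ⌊x⌋₊ := Nat.le_floor h3
      have h6 : ⌊x⌋₊ ≤ t + 1 := by
        have : (⌊x⌋₊ : ℝ) ≤ x := Nat.floor_le hx0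
        have h7 : (⌊x⌋₊ : ℝ) ≤ ((t + 1 : ℕ) : ℝ) := by push_cast; linarith
        exact_mod_cast h7
      rw [mem_insert, mem_singleton]
      omega
    exact (card_le_card hsub).trans card_le_two
  have h1 : S.card ≤ 2 * F.roots.toFinset.card := by
    have := Finset.card_le_mul_card_image_of_maps_to hmaps 2 hfib
    exact this
  have h2 : F.roots.toFinset.card ≤ d :=
    (Multiset.toFinset_card_le _).trans ((F.card_roots').trans hd)
  omega

/-- The weights of the line. -/
def gw (m t u v : ℕ) : ℤ :=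
  if u % 3 = 0 ∧ v % 3 = 1 then 2 * ((u / 3 : ℕ) + m * (v / 3 : ℕ) : ℤ)
  else if u % 3 = 0 ∧ v % 3 = 2 then 2 * (m : ℤ) ^ 2 * (v / 3 : ℕ) - t
  else 0

/-- The instances of the line. -/
def lineInst (n t : ℕ) : Inst n where
  flag u v := decide ((u : ℕ) < 3 * (n / 3) ∧ (v : ℕ) < 3 * (n / 3) ∧ (u : ℕ) % 3 ≠ (v : ℕ) % 3)
  wt u v := gw (n / 3) t u v + gw (n / 3) t v u

theorem gw_slope (m _t u v : ℕ) : ∃ b : ℤ, ∀ t : ℕ, gw m t u v = gw m 0 u v + b * t := by
  by_cases h1 : u % 3 = 0 ∧ v % 3 = 1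
  · exact ⟨0, fun t => by simp only [gw, if_pos h1]; ring⟩
  · by_cases h2 : u % 3 = 0 ∧ v % 3 = 2
    · exact ⟨-1, fun t => by simp only [gw, if_neg h1, if_pos h2]; push_cast; ring⟩
    · exact ⟨0, fun t => by simp only [gw, if_neg h1, if_neg h2]; ring⟩

theorem gw_bound (n t u v : ℕ) (hn : 3 ≤ n) (ht : t ≤ 2 * (n / 3) ^ 3)
    (hu : u < n) (hv : v < n) : |gw (n / 3) t u v + gw (n / 3) t v u| ≤ (n : ℤ) ^ 300 := by
  have hpow : (n : ℤ) ^ 4 ≤ (n : ℤ) ^ 300 := pow_le_pow_right₀ (by omega) (by norm_num)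
  have hm : (3 : ℤ) * (n / 3 : ℕ) ≤ n := by
    have : 3 * (n / 3) ≤ n := Nat.mul_div_le n 3
    exact_mod_cast this
  have hm1 : (1 : ℤ) ≤ (n / 3 : ℕ) := by
    have : 1 ≤ n / 3 := by omega
    exact_mod_cast this
  have ht' : (t : ℤ) ≤ 2 * ((n / 3 : ℕ) : ℤ) ^ 3 := by exact_mod_cast ht
  set M : ℤ := ((n / 3 : ℕ) : ℤ) with hM
  have hN : (3 : ℤ) ≤ n := by exact_mod_cast hn
  have hM3 : M ^ 3 ≤ (n : ℤ) ^ 3 := pow_le_pow_left₀ (by omega) (by omega) 3
  have hM2 : M ^ 2 ≤ (n : ℤ) ^ 2 := pow_le_pow_left₀ (by omega) (by omega) 2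
  have hbd : ∀ a b : ℕ, a < n → b < n → |gw (n / 3) t a b| ≤ 2 * (n : ℤ) ^ 3 := by
    intro a b ha hb
    have ha' : ((a / 3 : ℕ) : ℤ) ≤ n := by
      have : a / 3 ≤ n := by omega
      exact_mod_cast this
    have hb' : ((b / 3 : ℕ) : ℤ) ≤ n := by
      have : b / 3 ≤ n := by omega
      exact_mod_cast this
    have ha0 : (0 : ℤ) ≤ ((a / 3 : ℕ) : ℤ) := Int.natCast_nonneg _
    have hb0 : (0 : ℤ) ≤ ((b / 3 : ℕ) : ℤ) := Int.natCast_nonneg _
    have hMn : M ≤ n := by omega
    have hn3 : (n : ℤ) ^ 2 * 3 ≤ (n : ℤ) ^ 3 := by nlinarith [sq_nonneg (n : ℤ)]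
    unfold gw
    split_ifs
    · rw [abs_of_nonneg (by positivity)]
      have : M * ((b / 3 : ℕ) : ℤ) ≤ n * n := mul_le_mul hMn hb' hb0 (by omega)
      nlinarith
    · rw [abs_le]
      have h1 : M ^ 2 * ((b / 3 : ℕ) : ℤ) ≤ (n : ℤ) ^ 2 * n :=
        mul_le_mul hM2 hb' hb0 (by positivity)
      have h2 : (0 : ℤ) ≤ M ^ 2 * ((b / 3 : ℕ) : ℤ) := by positivity
      have h3 : (0 : ℤ) ≤ t := Int.natCast_nonneg _
      constructor <;> nlinarith
    · rw [abs_zero]
      positivity
  have h1 := hbd u v hu hv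
  have h2 := hbd v u hv hu
  have h3 := abs_add_le (gw (n / 3) t u v) (gw (n / 3) t v u)
  have h4 : 4 * (n : ℤ) ^ 3 ≤ 2 * (n : ℤ) ^ 4 := by nlinarith [pow_pos (show (0 : ℤ) < n by omega) 3]
  have h5 : (n : ℤ) ^ 4 * 2 ≤ (n : ℤ) ^ 300 := by
    have : (n : ℤ) ^ 5 ≤ (n : ℤ) ^ 300 := pow_le_pow_right₀ (by omega) (by norm_num)
    have h6 : (n : ℤ) ^ 4 * 2 ≤ (n : ℤ) ^ 5 := by
      nlinarith [pow_pos (show (0 : ℤ) < n by omega) 4]
    linarith
  linarith

theorem line_valid (n t : ℕ) (hn : 3 ≤ n) (ht : t ≤ 2 * (n / 3) ^ 3) : (lineInst n t).Valid := by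
  refine ⟨fun i j => ?_, fun i => ?_, fun i j => ?_, fun i j => ?_⟩
  · simp only [lineInst, ne_eq]
    congr 1
    rw [eq_iff_iff]
    constructor
    · rintro ⟨h1, h2, h3⟩
      exact ⟨h2, h1, fun h => h3 h.symm⟩
    · rintro ⟨h1, h2, h3⟩
      exact ⟨h2, h1, fun h => h3 h.symm⟩
  · simp [lineInst]
  · simp only [lineInst]
    ring
  · exact gw_bound n t i j hn ht i.2 j.2

theorem line_yes_iff (n t : ℕ) (ht : t < 2 * (n / 3) ^ 3) :
    (lineInst n t).Yes ↔ t % 2 = 0 := by
  set m := n / 3 with hm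
  have hmn : 3 * m ≤ n := Nat.mul_div_le n 3
  constructor
  · rintro ⟨i, j, k, _, _, _, h1, h2, h3, h4⟩
    simp only [lineInst, ne_eq, decide_eq_true_eq] at h1 h2 h3
    simp only [lineInst] at h4
    have key : ∀ a b c : ℕ, a % 3 = 0 → b % 3 = 1 → c % 3 = 2 →
        gw m t a b + gw m t b a + (gw m t b c + gw m t c b) + (gw m t a c + gw m t c a) = 0 →
        t % 2 = 0 := by
      intro a b c ha hb hc h
      simp only [gw, ha, hb, hc] at h
      norm_num at h
      have h' : (t : ℤ) = 2 * (((a / 3 : ℕ) : ℤ) + m * ((b / 3 : ℕ) : ℤ) +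
          m ^ 2 * ((c / 3 : ℕ) : ℤ)) := by
        push_cast
        linarith
      omega
    have tri : ∀ x : ℕ, x % 3 = 0 ∨ x % 3 = 1 ∨ x % 3 = 2 := fun x => by omega
    obtain ⟨_, _, c1⟩ := h1
    obtain ⟨_, _, c2⟩ := h2
    obtain ⟨_, _, c3⟩ := h3
    rcases tri i with hi | hi | hi <;> rcases tri j with hj | hj | hj <;>
      rcases tri k with hk | hk | hk <;> try (first | (exfalso; omega))
    · exact key i j k hi hj hk (by linarith)
    · exact key i k j hi hk hj (by linarith)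
    · exact key j i k hj hi hk (by linarith)
    · exact key k i j hk hi hj (by linarith)
    · exact key j k i hj hk hi (by linarith)
    · exact key k j i hk hj hi (by linarith)
  · intro h
    -- the digits of t / 2 in base m
    have hm0 : 0 < m := by
      rcases Nat.eq_zero_or_pos m with h0 | h0
      · rw [h0] at ht
        omega
      · exact h0
    set q := t / 2 with hq
    have htq : t = 2 * q := by omega
    have hq3 : q < m ^ 3 := by omega
    have e1 : q % m < m := Nat.mod_lt _ hm0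
    have e2 : q / m % m < m := Nat.mod_lt _ hm0
    have e3 : q / m / m < m := by
      rw [Nat.div_lt_iff_lt_mul hm0, Nat.div_lt_iff_lt_mul hm0]
      calc q < m ^ 3 := hq3
        _ = m * m * m := by ring
    have hqd : q = q % m + m * (q / m % m) + m ^ 2 * (q / m / m) := by
      have h1 := Nat.mod_add_div q m
      have h2 := Nat.mod_add_div (q / m) m
      calc q = q % m + m * (q / m) := h1.symm
        _ = q % m + m * (q / m % m + m * (q / m / m)) := by rw [h2]
        _ = _ := by ring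
    set a := q % m
    set b := q / m % m
    set c := q / m / m
    refine ⟨⟨3 * a, by omega⟩, ⟨3 * b + 1, by omega⟩, ⟨3 * c + 2, by omega⟩, ?_, ?_, ?_, ?_, ?_,
      ?_, ?_⟩
    · intro h; simp only [Fin.mk.injEq] at h; omega
    · intro h; simp only [Fin.mk.injEq] at h; omega
    · intro h; simp only [Fin.mk.injEq] at h; omega
    · simp only [lineInst, ne_eq, decide_eq_true_eq]; omega
    · simp only [lineInst, ne_eq, decide_eq_true_eq]; omega
    · simp only [lineInst, ne_eq, decide_eq_true_eq]; omega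
    · have r1 : 3 * a % 3 = 0 := by omega
      have r2 : (3 * b + 1) % 3 = 1 := by omega
      have r3 : (3 * c + 2) % 3 = 2 := by omega
      have r4 : 3 * a / 3 = a := by omega
      have r5 : (3 * b + 1) / 3 = b := by omega
      have r6 : (3 * c + 2) / 3 = c := by omega
      simp only [lineInst, gw, r1, r2, r3, r4, r5, r6]
      norm_num
      have : (t : ℤ) = 2 * (a + m * b + m ^ 2 * c) := by
        rw [htq]
        push_cast
        have h' : (q : ℤ) = a + m * b + m ^ 2 * c := by exact_mod_cast hqd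
        rw [h']
      have hmc : (n : ℤ) / 3 = (m : ℤ) := by
        rw [hm]
        push_cast
        rfl
      rw [hmc]
      linarith

/-- The polynomial along the line. -/
theorem exists_poly (n d : ℕ) (p : MvPolynomial (Fin n × Fin n) ℝ) (hp : p.totalDegree ≤ d) :
    ∃ F : Polynomial ℝ, F.natDegree ≤ d ∧ ∀ t : ℕ, F.eval (t : ℝ) = pvalue p (lineInst n t) := by
  choose b hb using fun c : Fin n × Fin n => gw_slope (n / 3) 0 c.1 c.2
  let f : Fin n × Fin n → Polynomial ℝ := fun c =>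
    Polynomial.C (((gw (n / 3) 0 c.1 c.2 + gw (n / 3) 0 c.2 c.1 : ℤ) : ℝ)) +
      Polynomial.C (((b c + b (c.2, c.1) : ℤ) : ℝ)) * Polynomial.X
  refine ⟨MvPolynomial.aeval f p, ?_, fun t => ?_⟩
  · have h := MvPolynomial.aeval_natDegree_le p hp f (n := 1) (fun c => by
      refine (Polynomial.natDegree_add_le _ _).trans (max_le ?_ ?_)
      · rw [Polynomial.natDegree_C]
        exact Nat.zero_le _
      · refine (Polynomial.natDegree_C_mul_le _ _).trans ?_
        rw [Polynomial.natDegree_X])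
    simpa using h
  · unfold pvalue
    have h1 : Polynomial.eval (t : ℝ) (MvPolynomial.aeval f p) =
        MvPolynomial.eval (fun c => Polynomial.eval (t : ℝ) (f c)) p := by
      rw [← Polynomial.coe_evalRingHom, MvPolynomial.map_aeval]
      simp only [Polynomial.coe_evalRingHom]
      rw [MvPolynomial.eval]
      congr 2
      ext x
      simp
    rw [h1]
    congr 1
    congr 1
    funext c
    have e1 := hb c t
    have e2 := hb (c.2, c.1) t
    simp only at e1 e2
    simp only [f, lineInst, Polynomial.eval_add, Polynomial.eval_C, Polynomial.eval_mul,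
      Polynomial.eval_X]
    rw [e1, e2]
    push_cast
    ring

/-- The lower bound. -/
theorem lower (n d D R : ℕ) (hn : 3 ≤ n) (A : PAlg n d D R) (hA : A.Decides) :
    n ^ 3 ≤ 375 * (d * D) := by
  classical
  set m := n / 3 with hm
  have hm1 : 1 ≤ m := by omega
  set T := 2 * m ^ 3 - 1 with hT
  have hm3 : 1 ≤ m ^ 3 := Nat.one_le_pow _ _ hm1
  -- the two kinds of events
  let V : (Fin R → Bool) → ℕ → (Fin D → SignType) := fun ρ t l =>
    SignType.sign (pvalue (A.ask (lineInst n 0).flag ρ l) (lineInst n t))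
  have hflag : ∀ t, (lineInst n t).flag = (lineInst n 0).flag := fun t => rfl
  have hout : ∀ ρ t, A.output (lineInst n t) ρ = A.out (lineInst n 0).flag ρ (V ρ t) :=
    fun ρ t => rfl
  have hup : ∀ ρ : Fin R → Bool, ((range T).filter fun t => V ρ t ≠ V ρ (t + 1)).card ≤
      D * (2 * d) := by
    intro ρ
    have hsub : ((range T).filter fun t => V ρ t ≠ V ρ (t + 1)) ⊆
        univ.biUnion fun l : Fin D => (range T).filter fun t => V ρ t l ≠ V ρ (t + 1) l := by
      intro t ht
      rw [mem_filter] at ht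
      obtain ⟨l, hl⟩ := Function.ne_iff.1 ht.2
      rw [mem_biUnion]
      exact ⟨l, mem_univ _, mem_filter.2 ⟨ht.1, hl⟩⟩
    refine (card_le_card hsub).trans (card_biUnion_le.trans ?_)
    have h1 : ∀ l ∈ (univ : Finset (Fin D)),
        ((range T).filter fun t => V ρ t l ≠ V ρ (t + 1) l).card ≤ 2 * d := by
      intro l _
      obtain ⟨F, hF1, hF2⟩ := exists_poly n d (A.ask (lineInst n 0).flag ρ l) (A.deg _ _ _)
      have h2 := sign_changes F d T hF1
      refine le_trans (le_of_eq ?_) h2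
      congr 1
      refine filter_congr fun t _ => ?_
      rw [hF2 t, hF2 (t + 1)]
    refine (sum_le_sum h1).trans ?_
    simp
  have hlow : ∀ t ∈ range T, 2 ^ R ≤ 3 * (univ.filter fun ρ : Fin R → Bool =>
      V ρ t ≠ V ρ (t + 1)).card := by
    intro t ht
    rw [mem_range] at ht
    have ht1 : t < 2 * m ^ 3 := by omega
    have ht2 : t + 1 < 2 * m ^ 3 := by omega
    have c1 := hA _ (line_valid n t hn (by rw [← hm]; omega))
    have c2 := hA _ (line_valid n (t + 1) hn (by rw [← hm]; omega))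
    set S1 := univ.filter fun ρ : Fin R → Bool =>
      (A.output (lineInst n t) ρ = true ↔ (lineInst n t).Yes) with hS1
    set S2 := univ.filter fun ρ : Fin R → Bool =>
      (A.output (lineInst n (t + 1)) ρ = true ↔ (lineInst n (t + 1)).Yes) with hS2
    have h1 := card_union_add_card_inter S1 S2
    have h2 : (S1 ∪ S2).card ≤ 2 ^ R := by
      refine (card_le_univ _).trans (le_of_eq ?_)
      simp
    have h3 : S1 ∩ S2 ⊆ univ.filter fun ρ : Fin R → Bool => V ρ t ≠ V ρ (t + 1) := by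
      intro ρ hρ
      rw [mem_inter, hS1, hS2, mem_filter, mem_filter] at hρ
      rw [mem_filter]
      refine ⟨mem_univ _, fun hV => ?_⟩
      have e1 := hρ.1.2
      have e2 := hρ.2.2
      rw [hout, line_yes_iff n t (by rw [← hm]; exact ht1)] at e1
      rw [hout, line_yes_iff n (t + 1) (by rw [← hm]; exact ht2), ← hV] at e2
      rw [e1] at e2
      omega
    have h4 := card_le_card h3
    omega
  have hsum : ∑ t ∈ range T, (univ.filter fun ρ : Fin R → Bool => V ρ t ≠ V ρ (t + 1)).card =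
      ∑ ρ : Fin R → Bool, ((range T).filter fun t => V ρ t ≠ V ρ (t + 1)).card := by
    simp only [card_filter]
    exact sum_comm
  have h1 : T * 2 ^ R ≤ 3 * ∑ t ∈ range T,
      (univ.filter fun ρ : Fin R → Bool => V ρ t ≠ V ρ (t + 1)).card := by
    rw [mul_sum]
    calc T * 2 ^ R = ∑ t ∈ range T, 2 ^ R := by simp
      _ ≤ _ := sum_le_sum hlow
  have h2 : ∑ ρ : Fin R → Bool, ((range T).filter fun t => V ρ t ≠ V ρ (t + 1)).card ≤
      2 ^ R * (D * (2 * d)) := by
    refine (sum_le_sum fun ρ _ => hup ρ).trans (le_of_eq ?_)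
    simp
  rw [hsum] at h1
  have h3 : T * 2 ^ R ≤ 3 * (D * (2 * d)) * 2 ^ R := by
    calc T * 2 ^ R ≤ 3 * (2 ^ R * (D * (2 * d))) := h1.trans (Nat.mul_le_mul_left 3 h2)
      _ = 3 * (D * (2 * d)) * 2 ^ R := by ring
  have h4 : T ≤ 3 * (D * (2 * d)) := Nat.le_of_mul_le_mul_right h3 (by positivity)
  have h5 : 3 * (D * (2 * d)) = 2 * (3 * (d * D)) := by ring
  have h6 : m ^ 3 ≤ 3 * (d * D) := by omega
  have h7 : n ≤ 5 * m := by omega
  calc n ^ 3 ≤ (5 * m) ^ 3 := Nat.pow_le_pow_left h7 3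
    _ = 125 * m ^ 3 := by ring
    _ ≤ 125 * (3 * (d * D)) := Nat.mul_le_mul_left _ h6
    _ = 375 * (d * D) := by ring

end Pool.Agent.Helper21.NP
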