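import Pool.Agent.Helper21.NP.Lower

set_option autoImplicit false

/-!
The upper bound: products of `d` triangle sums.
-/

namespace Pool.Agent.Helper21.NP

open Finset Pool.Agent.Helper14.RR

open Classical in
/-- The factor with number `x`: the sum of the three weights if `x` is the number of a triangle,
otherwise `1`. -/
noncomputable def fac (n : ℕ) (fl : Fin n → Fin n → Bool) (x : ℕ) :
    MvPolynomial (Fin n × Fin n) ℝ :=
  if h : x < n * n * n then
    let q := finProdFinEquiv.symm (⟨x, h⟩ : Fin (n * n * n))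
    let i := (finProdFinEquiv.symm q.1).1
    let j := (finProdFinEquiv.symm q.1).2
    let k := q.2
    if i ≠ j ∧ j ≠ k ∧ i ≠ k ∧ fl i j = true ∧ fl j k = true ∧ fl i k = true then
      MvPolynomial.X (i, j) + MvPolynomial.X (j, k) + MvPolynomial.X (i, k)
    else 1
  else 1

theorem fac_deg (n : ℕ) (fl : Fin n → Fin n → Bool) (x : ℕ) : (fac n fl x).totalDegree ≤ 1 := by
  unfold fac
  split_ifs with h
  · simp only
    split_ifs
    · refine (MvPolynomial.totalDegree_add _ _).trans (max_le ?_ ?_)
      · refine (MvPolynomial.totalDegree_add _ _).trans (max_le ?_ ?_)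
        · rw [MvPolynomial.totalDegree_X]
        · rw [MvPolynomial.totalDegree_X]
      · rw [MvPolynomial.totalDegree_X]
    · rw [MvPolynomial.totalDegree_one]
      exact Nat.zero_le _
  · rw [MvPolynomial.totalDegree_one]
    exact Nat.zero_le _

open Classical in
/-- The algorithm. -/
noncomputable def prodAlg (n d D : ℕ) : PAlg n d D 0 where
  ask fl _ l := ∏ r : Fin d, fac n fl ((l : ℕ) * d + r)
  deg fl _ l := by
    refine (MvPolynomial.totalDegree_finsetProd _ _).trans ?_
    refine (Finset.sum_le_sum fun r _ => fac_deg n fl _).trans ?_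
    simp
  out _ _ s := decide (∃ l, s l = 0)

theorem fac_zero (n : ℕ) (I : Inst n) (x : ℕ) (h : pvalue (fac n I.flag x) I = 0) : I.Yes := by
  unfold fac at h
  split_ifs at h with hx
  · simp only at h
    split_ifs at h with hc
    · set q := finProdFinEquiv.symm (⟨x, hx⟩ : Fin (n * n * n))
      obtain ⟨h1, h2, h3, h4, h5, h6⟩ := hc
      refine ⟨_, _, _, h1, h2, h3, h4, h5, h6, ?_⟩
      unfold pvalue at h
      simp only [map_add, MvPolynomial.eval_X] at h
      exact_mod_cast h
    · unfold pvalue at h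
      simp at h
  · unfold pvalue at h
    simp at h

theorem yes_fac (n : ℕ) (I : Inst n) (h : I.Yes) :
    ∃ x < n * n * n, pvalue (fac n I.flag x) I = 0 := by
  obtain ⟨i, j, k, h1, h2, h3, h4, h5, h6, h7⟩ := h
  refine ⟨(finProdFinEquiv (finProdFinEquiv (i, j), k) : Fin (n * n * n)), Fin.is_lt _, ?_⟩
  unfold fac
  rw [dif_pos (Fin.is_lt _)]
  have hq : finProdFinEquiv.symm (⟨((finProdFinEquiv (finProdFinEquiv (i, j), k) :
      Fin (n * n * n)) : ℕ), Fin.is_lt _⟩ : Fin (n * n * n)) = (finProdFinEquiv (i, j), k) := by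
    rw [Fin.eta, Equiv.symm_apply_apply]
  simp only [hq, Equiv.symm_apply_apply]
  rw [if_pos ⟨h1, h2, h3, h4, h5, h6⟩]
  unfold pvalue
  simp only [map_add, MvPolynomial.eval_X]
  exact_mod_cast h7

/-- The upper bound. -/
theorem upper (n d D : ℕ) (h : n ^ 3 ≤ d * D) : ∃ A : PAlg n d D 0, A.Decides := by
  classical
  refine ⟨prodAlg n d D, fun I _ => ?_⟩
  have key : ∀ ρ : Fin 0 → Bool, (prodAlg n d D).output I ρ = true ↔ I.Yes := by
    intro ρ
    unfold PAlg.output prodAlg
    simp only [decide_eq_true_eq, sign_eq_zero_iff]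
    have hval : ∀ l : Fin D, pvalue (∏ r : Fin d, fac n I.flag ((l : ℕ) * d + r)) I =
        ∏ r : Fin d, pvalue (fac n I.flag ((l : ℕ) * d + r)) I := fun l => by
      unfold pvalue
      rw [map_prod]
    constructor
    · rintro ⟨l, hl⟩
      rw [hval, prod_eq_zero_iff] at hl
      obtain ⟨r, _, hr⟩ := hl
      exact fac_zero n I _ hr
    · intro hY
      obtain ⟨x, hx, hx0⟩ := yes_fac n I hY
      have hn3 : n * n * n = n ^ 3 := by ring
      have hxd : x < D * d := by
        rw [Nat.mul_comm D d]
        omega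
      have hd0 : 0 < d := by
        rcases Nat.eq_zero_or_pos d with h0 | h0
        · rw [h0, Nat.mul_zero] at hxd
          omega
        · exact h0
      refine ⟨⟨x / d, ?_⟩, ?_⟩
      · rw [Nat.div_lt_iff_lt_mul hd0]
        exact hxd
      · rw [hval, prod_eq_zero_iff]
        refine ⟨⟨x % d, Nat.mod_lt _ hd0⟩, mem_univ _, ?_⟩
        simp only
        rw [Nat.div_add_mod' x d]
        exact hx0
  have hall : (univ.filter fun ρ : Fin 0 → Bool =>
      ((prodAlg n d D).output I ρ = true ↔ I.Yes)) = univ :=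
    filter_true_of_mem fun ρ _ => key ρ
  have hcard : (univ.filter fun ρ : Fin 0 → Bool =>
      ((prodAlg n d D).output I ρ = true ↔ I.Yes)).card = 1 := by
    rw [hall]
    simp
  have h2 : 2 * 2 ^ 0 ≤ 3 * (univ.filter fun ρ : Fin 0 → Bool =>
      ((prodAlg n d D).output I ρ = true ↔ I.Yes)).card := by
    rw [hcard]
    norm_num
  convert h2

end Pool.Agent.Helper21.NP
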